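import Pool.Agent.Q128.AR.Cyc0

/-! # Project AR, job CLS -/

set_option autoImplicit false
set_option linter.unusedSectionVars false
set_option linter.deprecated false

namespace Pool.Agent.Q128.AR

open NumberField IsDedekindDomain Pool.Agent.Q5.BR Pool.Agent.Q92.AR

theorem Ram.unram {F E : Type} [Field F] [NumberField F] [Field E] [NumberField E] [Algebra F E]
    {N : ℕ} (h : Ram F E N) {v : HeightOneSpectrum (𝓞 F)} (hv : (N : 𝓞 F) ∉ v.asIdeal) :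
    Unramified E v := by
  by_contra h2
  exact hv (h v h2)

theorem not_mem_of_coprime {F : Type} [Field F] [NumberField F] {v : HeightOneSpectrum (𝓞 F)}
    {m : ℕ} (h : m.Coprime (Ideal.absNorm v.asIdeal)) : (m : 𝓞 F) ∉ v.asIdeal := by
  intro hm
  have h1 : ((Ideal.absNorm v.asIdeal : ℕ) : 𝓞 F) ∈ v.asIdeal := Ideal.absNorm_mem v.asIdeal
  have h2 : IsCoprime (m : 𝓞 F) ((Ideal.absNorm v.asIdeal : ℕ) : 𝓞 F) := by
    have h3 : IsCoprime (m : ℤ) ((Ideal.absNorm v.asIdeal : ℕ) : ℤ) := Nat.isCoprime_iff_coprime.2 h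
    have h4 := h3.map (Int.castRingHom (𝓞 F))
    simpa using h4
  obtain ⟨a, b, hab⟩ := h2
  apply v.isPrime.ne_top
  rw [Ideal.eq_top_iff_one, ← hab]
  exact v.asIdeal.add_mem (v.asIdeal.mul_mem_left _ hm) (v.asIdeal.mul_mem_left _ h1)

section
variable {F C : Type} [Field F] [Field C] [Algebra F C]

theorem pow_root {g : C ≃ₐ[F] C} {ζ : C} {k : ℕ} (h : g ζ = ζ ^ k) (x : ℕ) :
    (g ^ x) ζ = ζ ^ (k ^ x) := by
  induction x with
  | zero => simp
  | succ x ih => rw [pow_succ, AlgEquiv.mul_apply, h, map_pow, ih, ← pow_mul, pow_succ]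

theorem inv_eq_pow {G : Type} [Group G] [Finite G] (z : G) : z⁻¹ = z ^ (Nat.card G - 1) := by
  have h1 : z * z ^ (Nat.card G - 1) = 1 := by
    rw [← pow_succ', Nat.sub_add_cancel Nat.card_pos]
    exact pow_card_eq_one'
  exact inv_eq_of_mul_eq_one_right h1

theorem mem_closure_two {G : Type} [Group G] [Finite G] {a b : G} (hab : a * b = b * a) {g : G}
    (hg : g ∈ Subgroup.closure {a, b}) : ∃ x y : ℕ, g = a ^ x * b ^ y := by
  have hc : ∀ x y : ℕ, Commute (a ^ x) (b ^ y) := fun x y =>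
    ((show Commute a b from hab).pow_left x).pow_right y
  refine Subgroup.closure_induction (p := fun g _ => ∃ x y : ℕ, g = a ^ x * b ^ y) ?_ ?_ ?_ ?_ hg
  · intro z hz
    rcases hz with rfl | hz
    · exact ⟨1, 0, by simp⟩
    · rw [Set.mem_singleton_iff] at hz
      subst hz
      exact ⟨0, 1, by simp⟩
  · exact ⟨0, 0, by simp⟩
  · rintro z z' _ _ ⟨x, y, rfl⟩ ⟨x', y', rfl⟩
    refine ⟨x + x', y + y', ?_⟩
    rw [pow_add, pow_add]
    have h := (hc x' y).eq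
    calc a ^ x * b ^ y * (a ^ x' * b ^ y') = a ^ x * (b ^ y * a ^ x') * b ^ y' := by
          simp only [mul_assoc]
      _ = a ^ x * (a ^ x' * b ^ y) * b ^ y' := by rw [h]
      _ = a ^ x * a ^ x' * (b ^ y * b ^ y') := by simp only [mul_assoc]
  · rintro z _ ⟨x, y, rfl⟩
    refine ⟨x * (Nat.card G - 1), y * (Nat.card G - 1), ?_⟩
    rw [inv_eq_pow, (hc x y).mul_pow, pow_mul, pow_mul]

end

theorem root_pow_iff {C : Type} [Field C] {ζ : C} {m : ℕ} (hm : m ≠ 0) (hζ : IsPrimitiveRoot ζ m)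
    (i j : ℕ) : ζ ^ i = ζ ^ j ↔ i ≡ j [MOD m] := by
  have hz : ζ ≠ 0 := hζ.ne_zero hm
  have h1 : IsPrimitiveRoot (Units.mk0 ζ hz) m := IsPrimitiveRoot.coe_units_iff.1 hζ
  rw [h1.eq_orderOf, ← pow_eq_pow_iff_modEq]
  constructor
  · intro h
    exact Units.ext (by simpa using h)
  · intro h
    have h2 := congrArg (fun u : Cˣ => (u : C)) h
    simpa using h2

section
variable {F E C : Type} [Field F] [NumberField F] [Field E] [NumberField E] [Field C] [NumberField C]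
  [Algebra F E] [Algebra E C] [Algebra F C] [IsScalarTower F E C] [IsGalois F E] [IsGalois F C]
  {m : ℕ} [NeZero m] [IsCyclotomicExtension {m} E C]

theorem exists_auto {ζ : C} (hζ : IsPrimitiveRoot ζ m) (σ : E ≃ₐ[F] E) {t : ℕ} (htm : t.Coprime m)
    (hB : ∀ t : ℕ, t.Coprime m → ∃ τ : C ≃ₐ[E] C, ∀ ζ : C, ζ ^ m = 1 → τ ζ = ζ ^ t) :
    ∃ Φ : C ≃ₐ[F] C, AlgEquiv.restrictNormal Φ E = σ ∧ Φ ζ = ζ ^ t := by
  have hm0 : m ≠ 0 := NeZero.ne m
  obtain ⟨u, -, hu⟩ := hζ.eq_pow_of_pow_eq_one (show (σ.liftNormal C) ζ ^ m = 1 by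
      rw [← map_pow, hζ.1, map_one])
  have huc : u.Coprime m := by
    rw [← hζ.pow_iff_coprime (Nat.pos_of_ne_zero hm0), hu]
    exact hζ.map_of_injective (σ.liftNormal C).injective
  obtain ⟨τ, hτ⟩ := hB (t * u ^ (m.totient - 1)) (htm.mul_left (huc.pow_left _))
  have hτE : AlgEquiv.restrictNormalHom E (AlgEquiv.restrictScalars F τ) = 1 := by
    ext x
    apply (algebraMap E C).injective
    change algebraMap E C (AlgEquiv.restrictNormal (AlgEquiv.restrictScalars F τ) E x) = _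
    rw [AlgEquiv.restrictNormal_commutes]
    exact τ.commutes x
  have hσE : AlgEquiv.restrictNormalHom E (σ.liftNormal C) = σ := by
    ext x
    apply (algebraMap E C).injective
    change algebraMap E C (AlgEquiv.restrictNormal (σ.liftNormal C) E x) = _
    rw [AlgEquiv.restrictNormal_commutes, AlgEquiv.liftNormal_commutes]
  refine ⟨σ.liftNormal C * AlgEquiv.restrictScalars F τ, ?_, ?_⟩
  · have h5 : AlgEquiv.restrictNormalHom E (σ.liftNormal C * AlgEquiv.restrictScalars F τ) =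
        σ := by
      rw [map_mul, hτE, mul_one, hσE]
    exact h5
  · rw [AlgEquiv.mul_apply]
    have h5 : (AlgEquiv.restrictScalars F τ) ζ = ζ ^ (t * u ^ (m.totient - 1)) := hτ ζ hζ.1
    rw [h5, map_pow, ← hu, ← pow_mul, root_pow_iff hm0 hζ]
    have h6 : u * (t * u ^ (m.totient - 1)) = t * u ^ m.totient := by
      have h7 : m.totient = (m.totient - 1) + 1 :=
        (Nat.sub_add_cancel (Nat.totient_pos.2 (Nat.pos_of_ne_zero hm0))).symm
      conv_rhs => rw [h7, pow_succ]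
      ring
    rw [h6]
    have h8 := (Nat.ModEq.pow_totient huc).mul_left t
    rw [mul_one] at h8
    exact h8

theorem side {ζ : C} (hζ : IsPrimitiveRoot ζ m) {Φp Φ : C ≃ₐ[F] C} (hc : Φp * Φ = Φ * Φp)
    {σ : E ≃ₐ[F] E} {a t n d : ℕ} (h1 : Φp ζ = ζ ^ a) (h2 : Φ ζ = ζ ^ t)
    (h3 : AlgEquiv.restrictNormal Φ E = σ) (h4 : AlgEquiv.restrictNormal Φp E = σ ^ d)
    (h5 : ∀ x y : ℕ, a ^ x * t ^ y ≡ 1 [MOD m] → n ∣ x ∧ n ∣ y) (h6 : σ ^ n = 1) :
    ∀ g ∈ Subgroup.closure {Φp, Φ}, g ζ = ζ → g = 1 := by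
  intro g hg hgζ
  obtain ⟨x, y, rfl⟩ := mem_closure_two hc hg
  have h7 : (Φp ^ x * Φ ^ y) ζ = ζ ^ (a ^ x * t ^ y) := by
    rw [AlgEquiv.mul_apply, pow_root h2, map_pow, pow_root h1, ← pow_mul]
  rw [h7] at hgζ
  have h8 : a ^ x * t ^ y ≡ 1 [MOD m] := by
    have h9 : ζ ^ (a ^ x * t ^ y) = ζ ^ 1 := by rw [hgζ, pow_one]
    exact (root_pow_iff (NeZero.ne m) hζ _ _).1 h9
  obtain ⟨⟨x', rfl⟩, ⟨y', rfl⟩⟩ := h5 x y h8
  refine eq_one_of_restrict (E := E) hζ ?_ (by rw [h7, hgζ])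
  have h10 : AlgEquiv.restrictNormalHom E (Φp ^ (n * x') * Φ ^ (n * y')) = 1 := by
    have e1 : AlgEquiv.restrictNormalHom E Φp = σ ^ d := h4
    have e2 : AlgEquiv.restrictNormalHom E Φ = σ := h3
    rw [map_mul, map_pow, map_pow, e1, e2, pow_mul σ, h6, one_pow, mul_one, ← pow_mul, mul_comm d,
      pow_mul σ, pow_mul σ, h6, one_pow, one_pow]
  exact h10

end

theorem cls_aux (hCross : S_Cross) (hCheb : S_Cheb) (hFR : S_FR)
    {F E : Type} [Field F] [NumberField F] [Field E] [NumberField E] [Algebra F E] [IsGalois F E]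
    {σ : E ≃ₐ[F] E} (hσ : ∀ g : E ≃ₐ[F] E, g ∈ Subgroup.zpowers σ) {N : ℕ} (hN : N ≠ 0)
    (hRam : Ram F E N) {n : ℕ} (hσn : σ ^ n = 1)
    (hab : ∀ g h : E ≃ₐ[F] E, g * h = h * g)
    (C : Type) [Field C] [NumberField C] [Algebra E C] [Algebra F C] [IsScalarTower F E C]
    (m : ℕ) [NeZero m] [IsCyclotomicExtension {m} E C] {t : ℕ} (htm : t.Coprime m)
    (hB : ∀ t : ℕ, t.Coprime m → ∃ τ : C ≃ₐ[E] C, ∀ ζ : C, ζ ^ m = 1 → τ ζ = ζ ^ t) :
    ∃ r : HeightOneSpectrum (𝓞 F), (N : 𝓞 F) ∉ r.asIdeal ∧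
    ∀ (q : HeightOneSpectrum (𝓞 F)) (e : ℕ), (N : 𝓞 F) ∉ q.asIdeal →
      m.Coprime (Ideal.absNorm q.asIdeal) → frob E q = σ ^ e →
      (∀ x y : ℕ, Ideal.absNorm q.asIdeal ^ x * t ^ y ≡ 1 [MOD m] → n ∣ x ∧ n ∣ y) →
      Finsupp.single q 1 - (e : ℤ) • Finsupp.single r 1 ∈ HN F E N := by
  have hm0 : m ≠ 0 := NeZero.ne m
  -- the field
  have hgal : IsGalois F C := isGalois_tower F E C m
  have hcomm : ∀ g h : C ≃ₐ[F] C, g * h = h * g := comm_of_comm m hab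
  obtain ⟨ζ, hζ⟩ := IsCyclotomicExtension.exists_isPrimitiveRoot E C (Set.mem_singleton m) hm0
  obtain ⟨Φ, hΦE, hΦζ⟩ := exists_auto hζ σ htm hB
  -- the prime
  obtain ⟨r, hrB, -, hrΦ⟩ := hCheb F C Φ {v | ((N * m : ℕ) : 𝓞 F) ∈ v.asIdeal} (by
    have h0 : Ideal.span {((N * m : ℕ) : 𝓞 F)} ≠ 0 := by
      rw [Ne, Ideal.zero_eq_bot, Ideal.span_singleton_eq_bot]
      exact_mod_cast mul_ne_zero hN hm0
    refine (Ideal.finite_factors h0).subset fun v hv => ?_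
    change v.asIdeal ∣ Ideal.span {((N * m : ℕ) : 𝓞 F)}
    rw [Ideal.dvd_iff_le, Ideal.span_singleton_le_iff_mem]
    exact hv)
  have hrN : (N : 𝓞 F) ∉ r.asIdeal := by
    intro h
    apply hrB
    change ((N * m : ℕ) : 𝓞 F) ∈ r.asIdeal
    rw [Nat.cast_mul]
    exact r.asIdeal.mul_mem_right _ h
  have hrm : (m : 𝓞 F) ∉ r.asIdeal := by
    intro h
    apply hrB
    change ((N * m : ℕ) : 𝓞 F) ∈ r.asIdeal
    rw [Nat.cast_mul]
    exact r.asIdeal.mul_mem_left _ h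
  refine ⟨r, hrN, ?_⟩
  · intro q e hqN hqm hqe hq
    have hqm' : (m : 𝓞 F) ∉ q.asIdeal := not_mem_of_coprime hqm
    obtain ⟨Φq, hΦq⟩ := exists_isFrobenius (M := C) q
    have h5 : AlgEquiv.restrictNormal Φq E = σ ^ e := by
      have h6 := hFR.1 F E C q Φq hΦq
      obtain ⟨h, hh⟩ := isFrobenius_conj (Ram.unram hRam hqN) h6 (frob_spec (M := E) q)
      rw [← hqe, hh, hab h⁻¹, mul_assoc, inv_mul_cancel, mul_one]
    exact hCross F E C σ hσ hcomm m ζ hζ q r Φq Φ e N hN hRam hqN hrN hqm' hrm hΦq hrΦ hΦE h5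
      (side (E := E) hζ (hcomm _ _) (frob_root hΦq hqm' hζ.1) hΦζ hΦE h5 hq hσn)

theorem cls (hCross : S_Cross) (hOrd : S_Ord) (hIrr : S_Irr) (hCheb : S_Cheb) (hFR : S_FR) :
    S_Cls := by
  intro F E _ _ _ _ _ _ σ hσ N hN hRam p p' d d' hp hp' hfp hfp'
  have hab : ∀ g h : E ≃ₐ[F] E, g * h = h * g := by
    intro g h
    obtain ⟨i, rfl⟩ := Subgroup.mem_zpowers_iff.1 (hσ g)
    obtain ⟨j, rfl⟩ := Subgroup.mem_zpowers_iff.1 (hσ h)
    rw [← zpow_add, ← zpow_add, add_comm]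
  set n := Module.finrank F E with hn
  have hn0 : n ≠ 0 := Module.finrank_pos.ne'
  have hσn : σ ^ n = 1 := by
    rw [hn, ← IsGalois.card_aut_eq_finrank]
    exact pow_card_eq_one'
  obtain ⟨B, hB0, hB⟩ := hIrr E
  set a := Ideal.absNorm p.asIdeal with ha
  set b := Ideal.absNorm p'.asIdeal with hb
  have ha2 : 2 ≤ a := by
    have h0 : a ≠ 0 := by rw [ha, Ne, Ideal.absNorm_eq_zero_iff]; exact p.ne_bot
    have h1 : a ≠ 1 := by rw [ha, Ne, Ideal.absNorm_eq_one_iff]; exact p.isPrime.ne_top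
    omega
  have hb2 : 2 ≤ b := by
    have h0 : b ≠ 0 := by rw [hb, Ne, Ideal.absNorm_eq_zero_iff]; exact p'.ne_bot
    have h1 : b ≠ 1 := by rw [hb, Ne, Ideal.absNorm_eq_one_iff]; exact p'.isPrime.ne_top
    omega
  have ha0 : a ≠ 0 := by omega
  have hb0 : b ≠ 0 := by omega
  obtain ⟨m1, h10, h1c, h1⟩ := hOrd a n (b * B) ha2 hn0 (mul_ne_zero hb0 hB0)
  obtain ⟨m2, h20, h2c, h2⟩ := hOrd a n (b * B * m1) ha2 hn0
    (mul_ne_zero (mul_ne_zero hb0 hB0) h10)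
  obtain ⟨m3, h30, h3c, h3⟩ := hOrd b n (a * B * (m1 * m2)) hb2 hn0
    (mul_ne_zero (mul_ne_zero ha0 hB0) (mul_ne_zero h10 h20))
  obtain ⟨m4, h40, h4c, h4⟩ := hOrd b n (a * B * (m1 * m2) * m3) hb2 hn0
    (mul_ne_zero (mul_ne_zero (mul_ne_zero ha0 hB0) (mul_ne_zero h10 h20)) h30)
  simp only [Nat.coprime_mul_iff_right] at h1c h2c h3c h4c
  obtain ⟨h1a, h1b, h1B⟩ := h1c
  obtain ⟨h2a, ⟨h2b, h2B⟩, h21⟩ := h2c
  obtain ⟨h3b, ⟨h3a, h3B⟩, h31, h32⟩ := h3c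
  obtain ⟨h4b, ⟨⟨h4a, h4B⟩, h41, h42⟩, h43⟩ := h4c
  set m := m1 * m2 * (m3 * m4) with hm
  have hm0 : m ≠ 0 := mul_ne_zero (mul_ne_zero h10 h20) (mul_ne_zero h30 h40)
  have hNm : NeZero m := ⟨hm0⟩
  have hma : m.Coprime a := ((h1a.mul_left h2a).mul_left (h3a.mul_left h4a))
  have hmb : m.Coprime b := ((h1b.mul_left h2b).mul_left (h3b.mul_left h4b))
  have hmB : m.Coprime B := ((h1B.mul_left h2B).mul_left (h3B.mul_left h4B))
  obtain ⟨t1, ht11, ht12⟩ := Nat.chineseRemainder h21.symm 1 a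
  obtain ⟨t2, ht21, ht22⟩ := Nat.chineseRemainder h43.symm 1 b
  have hco : (m1 * m2).Coprime (m3 * m4) :=
    ((h31.mul_right h32).mul_left (h41.mul_right h42)).symm
  obtain ⟨t, htt1, htt2⟩ := Nat.chineseRemainder hco t1 t2
  have e1 : t ≡ 1 [MOD m1] := (htt1.of_mul_right m2).trans ht11
  have e2 : t ≡ a [MOD m2] := (htt1.of_mul_left m1).trans ht12
  have e3 : t ≡ 1 [MOD m3] := (htt2.of_mul_right m4).trans ht21
  have e4 : t ≡ b [MOD m4] := (htt2.of_mul_left m3).trans ht22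
  have htm : t.Coprime m := by
    have c1 : t.Coprime m1 := by
      have := e1.gcd_eq
      rw [Nat.gcd_one_left] at this
      exact this
    have c2 : t.Coprime m2 := by
      have := e2.gcd_eq
      rw [h2a.symm] at this
      exact this
    have c3 : t.Coprime m3 := by
      have := e3.gcd_eq
      rw [Nat.gcd_one_left] at this
      exact this
    have c4 : t.Coprime m4 := by
      have := e4.gcd_eq
      rw [h4b.symm] at this
      exact this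
    exact (c1.mul_right c2).mul_right (c3.mul_right c4)
  obtain ⟨r, hrN, main⟩ := cls_aux hCross hCheb hFR hσ hN hRam hσn hab (CyclotomicField m E) m htm
    (hB m hmB (CyclotomicField m E))
  refine ⟨r, hrN, main p d hp hma hfp ?_, main p' d' hp' hmb hfp' ?_⟩
  · intro x y hxy
    rw [← ha] at hxy
    have k1 : a ^ x ≡ 1 [MOD m1] := by
      have h5 : a ^ x * t ^ y ≡ 1 [MOD m1] :=
        hxy.of_dvd ⟨m2 * (m3 * m4), by rw [hm]; ring⟩
      have h6 : a ^ x * t ^ y ≡ a ^ x * 1 ^ y [MOD m1] := (e1.pow y).mul_left _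
      rw [one_pow, mul_one] at h6
      exact h6.symm.trans h5
    have k2 : a ^ (x + y) ≡ 1 [MOD m2] := by
      have h5 : a ^ x * t ^ y ≡ 1 [MOD m2] :=
        hxy.of_dvd ⟨m1 * (m3 * m4), by rw [hm]; ring⟩
      have h6 : a ^ x * t ^ y ≡ a ^ x * a ^ y [MOD m2] := (e2.pow y).mul_left _
      rw [pow_add]
      exact h6.symm.trans h5
    have k3 := h1 x k1
    exact ⟨k3, (Nat.dvd_add_right k3).1 (h2 _ k2)⟩
  · intro x y hxy
    rw [← hb] at hxy
    have k1 : b ^ x ≡ 1 [MOD m3] := by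
      have h5 : b ^ x * t ^ y ≡ 1 [MOD m3] :=
        hxy.of_dvd ⟨m1 * m2 * m4, by rw [hm]; ring⟩
      have h6 : b ^ x * t ^ y ≡ b ^ x * 1 ^ y [MOD m3] := (e3.pow y).mul_left _
      rw [one_pow, mul_one] at h6
      exact h6.symm.trans h5
    have k2 : b ^ (x + y) ≡ 1 [MOD m4] := by
      have h5 : b ^ x * t ^ y ≡ 1 [MOD m4] :=
        hxy.of_dvd ⟨m1 * m2 * m3, by rw [hm]; ring⟩
      have h6 : b ^ x * t ^ y ≡ b ^ x * b ^ y [MOD m4] := (e4.pow y).mul_left _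
      rw [pow_add]
      exact h6.symm.trans h5
    have k3 := h3 x k1
    exact ⟨k3, (Nat.dvd_add_right k3).1 (h4 _ k2)⟩

end Pool.Agent.Q128.AR
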