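import Pool.Agent.Q128.AR.Sec2

/-! # Project AR, job SEC: the second inequality -/

set_option autoImplicit false
set_option linter.unusedSectionVars false
set_option linter.deprecated false

namespace Pool.Agent.Q128.AR

open NumberField IsDedekindDomain Pool.Agent.Q5.BR Pool.Agent.Q92.AR Pool.Agent.H921R2.TatePole
  Filter Topology

section
variable {F : Type} [Field F] [NumberField F]

theorem Lc_ne_zero (N : ℕ) (χ : Dv F →+ Additive ℂˣ) (s : ℂ) : Lc N χ s ≠ 0 := by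
  rw [Lc_eq]
  exact Complex.exp_ne_zero _

theorem tendsto_coe : Tendsto (fun x : ℝ => (x : ℂ)) (𝓝[>] 1) (𝓝[≠] 1) := by
  rw [tendsto_nhdsWithin_iff]
  constructor
  · have : Tendsto (fun x : ℝ => (x : ℂ)) (𝓝 1) (𝓝 ((1 : ℝ) : ℂ)) :=
      Complex.continuous_ofReal.tendsto 1
    rw [Complex.ofReal_one] at this
    exact this.mono_left nhdsWithin_le_nhds
  · filter_upwards [self_mem_nhdsWithin] with x hx
    simp only [Set.mem_compl_iff, Set.mem_singleton_iff]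
    intro h
    have : x = 1 := by exact_mod_cast h
    exact (ne_of_gt (Set.mem_Ioi.mp hx)) this

theorem upper_analytic {N : ℕ} {χ : Dv F →+ Additive ℂˣ} {f : ℂ → ℂ}
    (h : ∀ s : ℂ, 1 < s.re → f s = Lc N χ s) (hf : AnalyticAt ℂ f 1) :
    ∃ C : ℝ, ∀ᶠ x : ℝ in 𝓝[>] 1, Real.log ‖Lc N χ (x : ℂ)‖ ≤ C := by
  have h1 : Tendsto (fun x : ℝ => ‖f (x : ℂ)‖) (𝓝[>] 1) (𝓝 ‖f 1‖) :=
    (hf.continuousAt.tendsto.comp (tendsto_coe.mono_right nhdsWithin_le_nhds)).norm
  refine ⟨Real.log (‖f 1‖ + 1), ?_⟩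
  filter_upwards [h1.eventually (gt_mem_nhds (show ‖f 1‖ < ‖f 1‖ + 1 by linarith)),
    self_mem_nhdsWithin] with x hx hx1
  have hx2 : (1 : ℝ) < ((x : ℂ)).re := by simpa using hx1
  rw [← h _ hx2]
  refine Real.log_le_log ?_ hx.le
  rw [norm_pos_iff, h _ hx2]
  exact Lc_ne_zero N χ _

theorem upper_pole {N : ℕ} {χ : Dv F →+ Additive ℂˣ} {f : ℂ → ℂ}
    (h : ∀ s : ℂ, 1 < s.re → f s = Lc N χ s) (hf : MeromorphicAt f 1)
    (ho : -1 ≤ meromorphicOrderAt f 1) :
    ∃ C : ℝ, ∀ᶠ x : ℝ in 𝓝[>] 1, Real.log ‖Lc N χ (x : ℂ)‖ ≤ C + Lam x := by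
  have hid : AnalyticAt ℂ (fun s : ℂ => s - 1) 1 := analyticAt_id.sub analyticAt_const
  have hid1 : meromorphicOrderAt (fun s : ℂ => s - 1) 1 = 1 := by
    have h1 : meromorphicOrderAt (fun s : ℂ => s - 1) 1 = ((1 : ℤ) : WithTop ℤ) := by
      rw [meromorphicOrderAt_eq_int_iff hid.meromorphicAt]
      refine ⟨fun _ => 1, analyticAt_const, one_ne_zero, ?_⟩
      filter_upwards with z
      simp
    rw [h1]
    rfl
  have hm : MeromorphicAt (fun s : ℂ => (s - 1) * f s) 1 := hid.meromorphicAt.mul hf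
  have ho2 : 0 ≤ meromorphicOrderAt (fun s : ℂ => (s - 1) * f s) 1 := by
    have h2 : meromorphicOrderAt (fun s : ℂ => (s - 1) * f s) 1 =
        meromorphicOrderAt (fun s : ℂ => s - 1) 1 + meromorphicOrderAt f 1 :=
      meromorphicOrderAt_mul hid.meromorphicAt hf
    rw [h2, hid1]
    have h3 : (1 : WithTop ℤ) + (-1) ≤ 1 + meromorphicOrderAt f 1 := by gcongr
    refine le_trans (le_of_eq ?_) h3
    rfl
  obtain ⟨c, hc⟩ := (tendsto_nhds_iff_meromorphicOrderAt_nonneg hm).2 ho2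
  have h1 : Tendsto (fun x : ℝ => ‖((x : ℂ) - 1) * f (x : ℂ)‖) (𝓝[>] 1) (𝓝 ‖c‖) :=
    (hc.comp tendsto_coe).norm
  refine ⟨Real.log (‖c‖ + 1), ?_⟩
  filter_upwards [h1.eventually (gt_mem_nhds (show ‖c‖ < ‖c‖ + 1 by linarith)),
    self_mem_nhdsWithin] with x hx hx1
  have hx2 : (1 : ℝ) < ((x : ℂ)).re := by simpa using hx1
  have hx3 : (0 : ℝ) < x - 1 := sub_pos.2 hx1
  rw [h _ hx2, norm_mul] at hx
  have e2 : ‖((x : ℂ) - 1)‖ = x - 1 := by
    have : ((x : ℂ) - 1) = ((x - 1 : ℝ) : ℂ) := by push_cast; ring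
    rw [this, Complex.norm_real, Real.norm_eq_abs, abs_of_pos hx3]
  rw [e2] at hx
  have hL : 0 < ‖Lc N χ (x : ℂ)‖ := norm_pos_iff.2 (Lc_ne_zero N χ _)
  have h4 := Real.log_le_log (mul_pos hx3 hL) hx.le
  rw [Real.log_mul hx3.ne' hL.ne'] at h4
  unfold Lam
  rw [one_div, Real.log_inv]
  linarith

theorem Lam_tendsto : Tendsto Lam (𝓝[>] 1) atTop := by
  have h1 : Tendsto (fun x : ℝ => x - 1) (𝓝[>] 1) (𝓝[>] 0) := by
    rw [tendsto_nhdsWithin_iff]
    constructor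
    · have : Tendsto (fun x : ℝ => x - 1) (𝓝 1) (𝓝 (1 - 1)) :=
        (continuous_id.sub continuous_const).tendsto 1
      rw [sub_self] at this
      exact this.mono_left nhdsWithin_le_nhds
    · filter_upwards [self_mem_nhdsWithin] with x hx
      change (0 : ℝ) < x - 1
      exact sub_pos.2 (Set.mem_Ioi.1 hx)
  have h2 : Tendsto (fun x : ℝ => 1 / (x - 1)) (𝓝[>] 1) atTop := by
    simp_rw [one_div]
    exact tendsto_inv_nhdsGT_zero.comp h1
  exact Real.tendsto_log_atTop.comp h2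

open scoped Classical in
/-- the part of a divisor prime to `N` -/
noncomputable def prj (F : Type) [Field F] [NumberField F] (N : ℕ) : Dv F →+ Pr F N :=
  (Finsupp.filterAddHom (fun v : HeightOneSpectrum (𝓞 F) => (N : 𝓞 F) ∉ v.asIdeal)).codRestrict
    (Pr F N) fun D v hv => by
      change Finsupp.filter _ D v = 0
      rw [Finsupp.filter_apply_neg]
      exact fun h => h hv

theorem prj_of_mem {N : ℕ} {D : Dv F} (hD : D ∈ Pr F N) : prj F N D = ⟨D, hD⟩ := by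
  classical
  apply Subtype.ext
  change Finsupp.filter _ D = D
  rw [Finsupp.filter_eq_self_iff]
  intro v hv h
  exact hv (hD v h)

theorem val_int {a : 𝓞 F} (ha : a ≠ 0) (v : HeightOneSpectrum (𝓞 F)) :
    v.valuation F (a : F) = WithZero.exp (-(FractionalIdeal.count F v
      (FractionalIdeal.spanSingleton (nonZeroDivisors (𝓞 F)) (a : F)))) := by
  classical
  have h1 : FractionalIdeal.spanSingleton (nonZeroDivisors (𝓞 F)) (a : F) =
      ((Ideal.span {a} : Ideal (𝓞 F)) : FractionalIdeal (nonZeroDivisors (𝓞 F)) F) := by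
    rw [FractionalIdeal.coeIdeal_span_singleton]
  have h2 : (Ideal.span {a} : Ideal (𝓞 F)) ≠ 0 := by
    rw [Ne, Ideal.zero_eq_bot, Ideal.span_singleton_eq_bot]
    exact ha
  rw [h1, FractionalIdeal.count_coe F v h2]
  change v.valuation F (algebraMap (𝓞 F) F a) = _
  rw [HeightOneSpectrum.valuation_of_algebraMap, HeightOneSpectrum.intValuation_if_neg _ ha]

theorem val_prin (x : Fˣ) (v : HeightOneSpectrum (𝓞 F)) :
    v.valuation F (x : F) = WithZero.exp (-(prin x v)) := by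
  obtain ⟨a, b, hb, hab⟩ := IsFractionRing.div_surjective (A := 𝓞 F) (x : F)
  have hb0 : b ≠ 0 := nonZeroDivisors.ne_zero hb
  have ha0 : a ≠ 0 := by
    rintro rfl
    apply x.ne_zero
    rw [← hab, map_zero, zero_div]
  have ha1 : (a : F) ≠ 0 := RingOfIntegers.coe_ne_zero_iff.2 ha0
  have hb1 : (b : F) ≠ 0 := RingOfIntegers.coe_ne_zero_iff.2 hb0
  have hx : x = Units.mk0 (a : F) ha1 / Units.mk0 (b : F) hb1 := by
    apply Units.ext
    rw [Units.val_div_eq_div_val]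
    exact hab.symm
  have e1 : v.valuation F ((Units.mk0 (a : F) ha1 : Fˣ) : F) =
      WithZero.exp (-(prin (Units.mk0 (a : F) ha1) v)) := val_int ha0 v
  have e2 : v.valuation F ((Units.mk0 (b : F) hb1 : Fˣ) : F) =
      WithZero.exp (-(prin (Units.mk0 (b : F) hb1) v)) := val_int hb0 v
  rw [hx, Units.val_div_eq_div_val, map_div₀, e1, e2, prin_div, Finsupp.sub_apply,
    ← WithZero.exp_sub]
  congr 1
  ring

theorem ray_mem_Pr {N : ℕ} {x : Fˣ} (hx : x ∈ Ray F N) : prin x ∈ Pr F N := by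
  intro v hv
  have h1 := val_eq_one hv (hx.1 v hv)
  rw [val_prin, ← WithZero.exp_zero, WithZero.exp_inj] at h1
  omega

end

theorem sec (hFin : S_Fin) (hHecke : S_Hecke) : S_Sec := by
  classical
  intro F E _ _ _ _ _ N hN
  have h0 : (HN F E N).relIndex (Pr F N) ≠ 0 := by
    have h1 := hFin F N hN
    have h2 : RayD F N ≤ HN F E N := le_sup_left
    have h3 := AddSubgroup.relIndex_dvd_of_le_left (Pr F N) h2
    intro h
    rw [h] at h3
    exact h1 (Nat.eq_zero_of_zero_dvd h3)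
  refine ⟨h0, ?_⟩
  set H' : AddSubgroup (Pr F N) := (HN F E N).addSubgroupOf (Pr F N) with hH'
  have hfi : H'.FiniteIndex := ⟨h0⟩
  have hfinG : Finite (Pr F N ⧸ H') := inferInstance
  let _ : Fintype (Pr F N ⧸ H') := Fintype.ofFinite _
  have hcard : (HN F E N).relIndex (Pr F N) = Fintype.card (Pr F N ⧸ H') := by
    rw [← Nat.card_eq_fintype_card]
    rfl
  let q : Dv F →+ (Pr F N ⧸ H') := (QuotientAddGroup.mk' H').comp (prj F N)
  have hq : ∀ D, D ∈ Pr F N → (q D = 0 ↔ D ∈ HN F E N) := by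
    intro D hD
    change QuotientAddGroup.mk' H' (prj F N D) = 0 ↔ _
    rw [prj_of_mem hD, QuotientAddGroup.mk'_apply, QuotientAddGroup.eq_zero_iff]
    exact AddSubgroup.mem_addSubgroupOf
  have hray : ∀ x ∈ Ray F N, q (prin x) = 0 := fun x hx =>
    (hq _ (ray_mem_Pr hx)).2 (AddSubgroup.mem_sup_left (AddSubgroup.subset_closure ⟨x, hx, rfl⟩))
  -- upper bound
  have hup : ∀ χ : AddChar (Pr F N ⧸ H') ℂ, ∃ C : ℝ, ∀ᶠ x : ℝ in 𝓝[>] 1,
      Real.log ‖Lc N (cc q χ) (x : ℂ)‖ ≤ C + (if χ = 0 then Lam x else 0) := by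
    intro χ
    obtain ⟨f, hm, hf, -, ho, han⟩ := hHecke F N (cc q χ) hN (fun x hx => by
      rw [cc_eq_zero, hray x hx, AddChar.map_zero_eq_one])
    by_cases hχ : χ = 0
    · obtain ⟨C, hC⟩ := upper_pole hf (hm 1 (Set.mem_univ _)) ho
      exact ⟨C, by simpa [hχ] using hC⟩
    · obtain ⟨g, hg⟩ := AddChar.ne_zero_iff.1 hχ
      obtain ⟨D, rfl⟩ := QuotientAddGroup.mk'_surjective H' g
      obtain ⟨C, hC⟩ := upper_analytic hf (han ⟨D.1, D.2, fun h => hg (by
        rw [cc_eq_zero] at h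
        rw [← h]
        change _ = χ (QuotientAddGroup.mk' H' (prj F N D.1))
        rw [prj_of_mem D.2])⟩)
      exact ⟨C, by simpa [hχ] using hC⟩
  choose C hC using hup
  have hall : ∀ᶠ x : ℝ in 𝓝[>] 1, ∀ χ : AddChar (Pr F N ⧸ H') ℂ,
      Real.log ‖Lc N (cc q χ) (x : ℂ)‖ ≤ C χ + (if χ = 0 then Lam x else 0) :=
    Filter.eventually_all.2 hC
  obtain ⟨C2, hC2⟩ := prime_sum_bdd (K := E)
  set n := Module.finrank F E with hn
  set h := Fintype.card (Pr F N ⧸ H') with hh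
  rw [hcard]
  by_contra hlt
  rw [not_le] at hlt
  have hlt' : (n : ℝ) + 1 ≤ (h : ℝ) := by exact_mod_cast hlt
  set C1 := ∑ χ, C χ with hC1
  set C3 := ∑' v, bt F N v + CK F with hC3
  have hself : ∀ᶠ x : ℝ in 𝓝[>] 1, x ∈ Set.Ioi (1 : ℝ) := self_mem_nhdsWithin
  obtain ⟨x, ⟨hxC, hx2⟩, hx1, hxL⟩ := ((hall.and hC2).and (hself.and
    (Lam_tendsto.eventually_gt_atTop (max 0 ((n : ℝ) * C1 + n * h * C3 + h * C2))))).exists
  have hx1' : (1 : ℝ) < x := hx1
  have hL0 : 0 < Lam x := lt_of_le_of_lt (le_max_left _ _) hxL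
  have hL1 : (n : ℝ) * C1 + n * h * C3 + h * C2 < Lam x := lt_of_le_of_lt (le_max_right _ _) hxL
  have e1 : (h : ℝ) * ∑' v, gt F E N x v ≤ C1 + Lam x := by
    have h3 := sum_log q N hx1'
    refine le_trans (le_of_eq ?_) (h3.trans ?_)
    · congr 1
      refine tsum_congr fun v => ?_
      have hiff : ((N : 𝓞 F) ∉ v.asIdeal ∧ Finsupp.single v (1 : ℤ) ∈ HN F E N) ↔
          ((N : 𝓞 F) ∉ v.asIdeal ∧ q (Finsupp.single v 1) = 0) := by
        refine and_congr_right fun hv => (hq _ ?_).symm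
        intro u hu
        rw [Finsupp.single_apply, if_neg]
        rintro rfl
        exact hv hu
      unfold gt
      by_cases h5 : (N : 𝓞 F) ∉ v.asIdeal ∧ Finsupp.single v (1 : ℤ) ∈ HN F E N
      · rw [if_pos h5, if_pos (hiff.1 h5)]
      · rw [if_neg h5, if_neg (fun h => h5 (hiff.2 h))]
    refine (Finset.sum_le_sum fun χ _ => hxC χ).trans (le_of_eq ?_)
    rw [Finset.sum_add_distrib]
    simp [hC1]
  have e2 : Lam x - C2 ≤ (n : ℝ) * (∑' v, gt F E N x v + C3) := by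
    have h3 := prime_sum_le_good (F := F) (E := E) hN hx1'
    have h4 := (abs_le.1 hx2).1
    linarith
  have hn0 : (0 : ℝ) ≤ n := by positivity
  have hh0 : (0 : ℝ) ≤ h := by positivity
  have e3 : (h : ℝ) * (Lam x - C2) ≤ (h : ℝ) * ((n : ℝ) * (∑' v, gt F E N x v + C3)) :=
    mul_le_mul_of_nonneg_left e2 hh0
  have e4 : (n : ℝ) * ((h : ℝ) * ∑' v, gt F E N x v) ≤ n * (C1 + Lam x) :=
    mul_le_mul_of_nonneg_left e1 hn0
  have e5 : ((h : ℝ) - n) * Lam x ≤ n * C1 + n * h * C3 + h * C2 := by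
    linarith
  have e6 : Lam x ≤ ((h : ℝ) - n) * Lam x := by
    have : (1 : ℝ) ≤ (h : ℝ) - n := by linarith
    nlinarith
  linarith

end Pool.Agent.Q128.AR
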