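import Pool.Agent.Q92.AR.Stm2

/-! # Project AR: Frobenius elements and roots of unity, cyclotomic extensions of Galois extensions -/

set_option autoImplicit false
set_option linter.unusedSectionVars false
set_option linter.deprecated false

namespace Pool.Agent.Q128.AR

open NumberField IsDedekindDomain Pool.Agent.Q5.BR Pool.Agent.Q92.AR

section
variable {R : Type} [CommRing R] [IsDomain R]

/-- roots of unity of order prime to `w` are distinct modulo `w` -/
theorem root_eq {w : Ideal R} (hw : w.IsPrime) {m : ℕ} (hm : (m : R) ∉ w) {u u' : R}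
    (hu : u ^ m = 1) (hu' : u' ^ m = 1) (h : u - u' ∈ w) : u = u' := by
  by_contra hne
  have hm0 : m ≠ 0 := by
    rintro rfl
    exact hm (by simp)
  have h1 := (Commute.all u u').geom_sum₂_mul m
  rw [hu, hu', sub_self] at h1
  have h2 : ∑ i ∈ Finset.range m, u ^ i * u' ^ (m - 1 - i) = 0 := by
    rcases mul_eq_zero.1 h1 with h3 | h3
    · exact h3
    · exact absurd (sub_eq_zero.1 h3) hne
  have e : Ideal.Quotient.mk w u = Ideal.Quotient.mk w u' := Ideal.Quotient.eq.2 h
  have h4 := congrArg (Ideal.Quotient.mk w) h2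
  rw [map_sum, map_zero] at h4
  have h5 : ∀ i ∈ Finset.range m, Ideal.Quotient.mk w (u ^ i * u' ^ (m - 1 - i)) =
      Ideal.Quotient.mk w (u' ^ (m - 1)) := by
    intro i hi
    rw [Finset.mem_range] at hi
    rw [map_mul, map_pow, map_pow, e, ← pow_add, ← map_pow]
    congr 2
    omega
  rw [Finset.sum_congr rfl h5, Finset.sum_const, Finset.card_range, nsmul_eq_mul,
    ← map_natCast (Ideal.Quotient.mk w), ← map_mul, Ideal.Quotient.eq_zero_iff_mem] at h4
  rcases hw.mem_or_mem h4 with h6 | h6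
  · exact hm h6
  · have h7 : (1 : R) ∈ w := by
      rw [← hu', ← Nat.sub_add_cancel (Nat.one_le_iff_ne_zero.2 hm0), pow_succ]
      exact w.mul_mem_right _ h6
    exact hw.ne_top ((Ideal.eq_top_iff_one _).2 h7)

end

section
variable {F C : Type} [Field F] [NumberField F] [Field C] [NumberField C] [Algebra F C]

/-- a Frobenius element raises roots of unity to the power `q_v` -/
theorem frob_root {v : HeightOneSpectrum (𝓞 F)} {g : C ≃ₐ[F] C} (hg : IsFrobenius v g) {m : ℕ}
    (hm : (m : 𝓞 F) ∉ v.asIdeal) {ζ : C} (hζ : ζ ^ m = 1) :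
    g ζ = ζ ^ Ideal.absNorm v.asIdeal := by
  obtain ⟨w, hwm, hwv, hw⟩ := hg
  have hm0 : m ≠ 0 := by
    rintro rfl
    exact hm (by simp)
  have hmw : (m : 𝓞 C) ∉ w := by
    intro h
    apply hm
    rw [← hwv, Ideal.mem_comap, map_natCast]
    exact h
  have hint : IsIntegral ℤ ζ := by
    refine IsIntegral.of_pow (Nat.pos_of_ne_zero hm0) ?_
    rw [hζ]
    exact isIntegral_one
  obtain ⟨z, hz⟩ : ∃ z : 𝓞 C, (z : C) = ζ := ⟨⟨ζ, hint⟩, rfl⟩
  obtain ⟨y, hy, hyz⟩ := hw z
  have hgint : IsIntegral ℤ (g ζ) := hint.map g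
  obtain ⟨z', hz'⟩ : ∃ z : 𝓞 C, (z : C) = g ζ := ⟨⟨g ζ, hgint⟩, rfl⟩
  have h1 : z' ^ m = 1 := by
    apply RingOfIntegers.ext
    change (z' : C) ^ m = 1
    rw [hz', ← map_pow, hζ, map_one]
  have h2 : (z ^ Ideal.absNorm v.asIdeal) ^ m = 1 := by
    apply RingOfIntegers.ext
    change ((z : C) ^ Ideal.absNorm v.asIdeal) ^ m = 1
    rw [hz, ← pow_mul, mul_comm, pow_mul, hζ, one_pow]
  have h3 : z' - z ^ Ideal.absNorm v.asIdeal ∈ w := by
    have h4 : z' - z ^ Ideal.absNorm v.asIdeal = y := by
      apply RingOfIntegers.ext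
      change (z' : C) - (z : C) ^ Ideal.absNorm v.asIdeal = (y : C)
      rw [hz', hyz, hz]
    rw [h4]
    exact hy
  have h5 := root_eq hwm.isPrime hmw h1 h2 h3
  rw [← hz', h5]
  change (z : C) ^ Ideal.absNorm v.asIdeal = _
  rw [hz]

end

section
variable {F E C : Type} [Field F] [NumberField F] [Field E] [NumberField E] [Field C] [NumberField C]
  [Algebra F E] [Algebra E C] [Algebra F C] [IsScalarTower F E C] [IsGalois F E]
  {m : ℕ} [NeZero m] [IsCyclotomicExtension {m} E C]

/-- an automorphism that fixes `E` and `ζ` is trivial -/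
theorem eq_one_of_fix {ζ : C} (hζ : IsPrimitiveRoot ζ m) {k : C ≃ₐ[F] C}
    (hE : ∀ x : E, k (algebraMap E C x) = algebraMap E C x) (hk : k ζ = ζ) : k = 1 := by
  let k' : C ≃ₐ[E] C := AlgEquiv.ofRingEquiv (f := (k : C ≃+* C)) hE
  have h1 : k' = 1 := by
    refine IsCyclotomicExtension.algEquiv_eq_of_apply_eq {m} E C fun n hn _ => ?_
    rw [Set.mem_singleton_iff] at hn
    subst hn
    exact ⟨ζ, hζ, hk⟩
  ext x
  have h2 := DFunLike.congr_fun h1 x
  exact h2

theorem eq_one_of_restrict [IsGalois F C] {ζ : C} (hζ : IsPrimitiveRoot ζ m) {k : C ≃ₐ[F] C}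
    (hE : AlgEquiv.restrictNormal k E = 1) (hk : k ζ = ζ) : k = 1 := by
  refine eq_one_of_fix (E := E) hζ (fun x => ?_) hk
  rw [← AlgEquiv.restrictNormal_commutes, hE]
  rfl

theorem isGalois_tower (F E C : Type) [Field F] [NumberField F] [Field E] [NumberField E] [Field C]
    [NumberField C] [Algebra F E] [Algebra E C] [Algebra F C] [IsScalarTower F E C] [IsGalois F E]
    (m : ℕ) [NeZero m] [IsCyclotomicExtension {m} E C] : IsGalois F C := by
  have h1 : Algebra.IsSeparable F C := inferInstance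
  have h2 : Normal F C := by
    let E' : IntermediateField F C := (IsScalarTower.toAlgHom F E C).fieldRange
    have hE' : Normal F E' := Normal.of_algEquiv
      (AlgEquiv.ofInjectiveField (IsScalarTower.toAlgHom F E C))
    obtain ⟨ζ, hζ⟩ := IsCyclotomicExtension.exists_isPrimitiveRoot E C (Set.mem_singleton m)
      (NeZero.ne m)
    let K' : IntermediateField F C := IntermediateField.adjoin F {ζ}
    have hK : IsCyclotomicExtension {m} F K' :=
      hζ.intermediateField_adjoin_isCyclotomicExtension F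
    have hK' : Normal F K' := by
      have := IsCyclotomicExtension.isGalois {m} F K'
      infer_instance
    have hsup : Normal F (E' ⊔ K' : IntermediateField F C) := inferInstance
    have htop : (E' ⊔ K' : IntermediateField F C) = ⊤ := by
      rw [eq_top_iff]
      intro x _
      have hx := IsCyclotomicExtension.adjoin_primitive_root_eq_top (A := E) (B := C) hζ
      have hx2 : x ∈ Algebra.adjoin E {ζ} := by rw [hx]; trivial
      refine Algebra.adjoin_induction ?_ ?_ ?_ ?_ hx2
      · intro y hy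
        rw [Set.mem_singleton_iff] at hy
        subst hy
        exact (le_sup_right : K' ≤ E' ⊔ K') (IntermediateField.mem_adjoin_simple_self F _)
      · intro r
        exact (le_sup_left : E' ≤ E' ⊔ K') ⟨r, rfl⟩
      · intro a b _ _ ha hb
        exact add_mem ha hb
      · intro a b _ _ ha hb
        exact mul_mem ha hb
    rw [htop] at hsup
    exact Normal.of_algEquiv (IntermediateField.topEquiv (F := F) (E := C))
  exact ⟨⟩

/-- the group of an abelian extension composed with a cyclotomic extension is abelian -/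
theorem comm_of_comm (m : ℕ) [NeZero m] [IsCyclotomicExtension {m} E C] [IsGalois F C]
    (hab : ∀ g h : E ≃ₐ[F] E, g * h = h * g) (g h : C ≃ₐ[F] C) :
    g * h = h * g := by
  obtain ⟨ζ, hζ⟩ := IsCyclotomicExtension.exists_isPrimitiveRoot E C (Set.mem_singleton m)
    (NeZero.ne m)
  have h1 : g * h * (h * g)⁻¹ = 1 := by
    refine eq_one_of_restrict (E := E) hζ ?_ ?_
    · have h2 : AlgEquiv.restrictNormalHom E (g * h * (h * g)⁻¹) = 1 := by
        rw [map_mul, map_inv, map_mul, map_mul, hab (AlgEquiv.restrictNormalHom E g), mul_inv_cancel]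
      exact h2
    · obtain ⟨i, -, hi⟩ := hζ.eq_pow_of_pow_eq_one (show g ζ ^ m = 1 by
        rw [← map_pow, hζ.1, map_one])
      obtain ⟨j, -, hj⟩ := hζ.eq_pow_of_pow_eq_one (show h ζ ^ m = 1 by
        rw [← map_pow, hζ.1, map_one])
      have h3 : g (h ζ) = h (g ζ) := by
        rw [← hi, ← hj, map_pow, map_pow, ← hi, ← hj, ← pow_mul, ← pow_mul, mul_comm]
      have h4 : (h * g)⁻¹ ((h * g) ζ) = ζ := by
        rw [← AlgEquiv.mul_apply, inv_mul_cancel]
        rfl
      have h5 : (g * h) ζ = (h * g) ζ := h3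
      have h6 : ∀ y : C, (h * g) ((h * g)⁻¹ y) = y := by
        intro y
        rw [← AlgEquiv.mul_apply, mul_inv_cancel]
        rfl
      obtain ⟨l, -, hl⟩ := hζ.eq_pow_of_pow_eq_one (show ((h * g)⁻¹ ζ) ^ m = 1 by
        rw [← map_pow, hζ.1, map_one])
      change (g * h) ((h * g)⁻¹ ζ) = ζ
      rw [← hl, map_pow, h5, ← map_pow, hl, h6]
  exact mul_inv_eq_one.1 h1

end

end Pool.Agent.Q128.AR
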