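import Pool.Agent.Q92.AR.Stm2
import Pool.Agent.H921R2.TatePole.Dedekind

/-! # Project AR, job SEC: the second inequality -/

set_option autoImplicit false
set_option linter.unusedSectionVars false
set_option linter.deprecated false

namespace Pool.Agent.Q128.AR

open NumberField IsDedekindDomain Pool.Agent.Q5.BR Pool.Agent.Q92.AR Pool.Agent.H921R2.TatePole
  Filter Topology

section
variable {F E : Type} [Field F] [NumberField F] [Field E] [NumberField E] [Algebra F E]

theorem above_card_le (v : HeightOneSpectrum (𝓞 F)) :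
    (above E v).card ≤ Module.finrank F E := by
  classical
  have hvm : v.asIdeal.IsMaximal := v.isMaximal
  have hi : Function.Injective (fun w : HeightOneSpectrum (𝓞 E) => w.asIdeal) :=
    fun w w' h => HeightOneSpectrum.ext h
  rw [← Ideal.sum_ramification_inertia (𝓞 E) F E v.ne_bot,
    ← Finset.card_image_of_injective (above E v) hi, Finset.card_eq_sum_ones]
  have hsub : (above E v).image (fun w : HeightOneSpectrum (𝓞 E) => w.asIdeal) ⊆
      IsDedekindDomain.primesOverFinset v.asIdeal (𝓞 E) := by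
    intro P hP
    obtain ⟨w, hw, rfl⟩ := Finset.mem_image.1 hP
    rw [IsDedekindDomain.mem_primesOverFinset_iff v.ne_bot]
    refine ⟨w.isPrime, ⟨?_⟩⟩
    rw [← mem_above.1 hw]
    rfl
  refine le_trans ?_ (Finset.sum_le_sum_of_subset hsub)
  refine Finset.sum_le_sum fun P hP => ?_
  obtain ⟨w, hw, rfl⟩ := Finset.mem_image.1 hP
  have hlo : w.asIdeal.LiesOver v.asIdeal := ⟨by rw [← mem_above.1 hw]; rfl⟩
  have h1 : 0 < Ideal.inertiaDeg' v.asIdeal w.asIdeal := Ideal.inertiaDeg'_pos _ _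
  have h2 : Ideal.ramificationIdx' v.asIdeal w.asIdeal ≠ 0 := by
    refine Ideal.IsDedekindDomain.ramificationIdx'_ne_zero ?_ w.isPrime ?_
    · rw [Ne, Ideal.map_eq_bot_iff_of_injective (FaithfulSMul.algebraMap_injective (𝓞 F) (𝓞 E))]
      exact v.ne_bot
    · rw [Ideal.map_le_iff_le_comap]
      exact hlo.over.le
  exact Nat.one_le_iff_ne_zero.2 (Nat.mul_ne_zero h2 h1.ne')

theorem natCast_mem_iff (N : ℕ) (w : HeightOneSpectrum (𝓞 E)) :
    (N : 𝓞 F) ∈ (w.under (𝓞 F)).asIdeal ↔ (N : 𝓞 E) ∈ w.asIdeal := by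
  change (N : 𝓞 F) ∈ w.asIdeal.comap (algebraMap (𝓞 F) (𝓞 E)) ↔ _
  rw [Ideal.mem_comap, map_natCast]

theorem good_mem {N : ℕ} {w : HeightOneSpectrum (𝓞 E)}
    (hN : (N : 𝓞 F) ∉ (w.under (𝓞 F)).asIdeal) (h1 : rdeg F w = 1) :
    Finsupp.single (w.under (𝓞 F)) (1 : ℤ) ∈ HN F E N := by
  classical
  have h2 : nmD F E (Finsupp.single w 1) = Finsupp.single (w.under (𝓞 F)) 1 := by
    rw [nmD_single, h1]
    norm_num
  rw [← h2]
  refine AddSubgroup.mem_sup_right (AddSubgroup.mem_map_of_mem _ ?_)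
  intro u hu
  rw [Finsupp.single_apply, if_neg]
  rintro rfl
  exact hN ((natCast_mem_iff N _).2 hu)

open scoped Classical in
/-- the terms of the sum over the primes whose class is trivial -/
noncomputable def gt (F E : Type) [Field F] [NumberField F] [Field E] [NumberField E] [Algebra F E]
    (N : ℕ) (x : ℝ) (v : HeightOneSpectrum (𝓞 F)) : ℝ :=
  if (N : 𝓞 F) ∉ v.asIdeal ∧ Finsupp.single v (1 : ℤ) ∈ HN F E N then (nm v : ℝ) ^ (-x) else 0

open scoped Classical in
noncomputable def bt (F : Type) [Field F] [NumberField F]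
    (N : ℕ) (v : HeightOneSpectrum (𝓞 F)) : ℝ := if (N : 𝓞 F) ∈ v.asIdeal then 1 else 0

theorem gt_nonneg (N : ℕ) (x : ℝ) (v : HeightOneSpectrum (𝓞 F)) : 0 ≤ gt F E N x v := by
  unfold gt
  split_ifs
  · positivity
  · exact le_rfl

theorem gt_le (N : ℕ) (x : ℝ) (v : HeightOneSpectrum (𝓞 F)) :
    gt F E N x v ≤ (nm v : ℝ) ^ (-x) := by
  unfold gt
  split_ifs
  · exact le_rfl
  · positivity

theorem gt_summable (N : ℕ) {x : ℝ} (hx : 1 < x) : Summable (gt F E N x) :=
  Summable.of_nonneg_of_le (gt_nonneg N x) (gt_le N x) (nm_summable hx)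

theorem bt_nonneg (N : ℕ) (v : HeightOneSpectrum (𝓞 F)) : 0 ≤ bt F N v := by
  unfold bt
  split_ifs
  · exact zero_le_one
  · exact le_rfl

theorem finite_dvd {N : ℕ} (hN : N ≠ 0) :
    {v : HeightOneSpectrum (𝓞 F) | (N : 𝓞 F) ∈ v.asIdeal}.Finite := by
  have h0 : Ideal.span {(N : 𝓞 F)} ≠ 0 := by
    rw [Ne, Ideal.zero_eq_bot, Ideal.span_singleton_eq_bot]
    exact_mod_cast hN
  refine (Ideal.finite_factors h0).subset fun v hv => ?_
  change v.asIdeal ∣ Ideal.span {(N : 𝓞 F)}
  rw [Ideal.dvd_iff_le, Ideal.span_singleton_le_iff_mem]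
  exact hv

theorem bt_summable {N : ℕ} (hN : N ≠ 0) : Summable (bt F N) := by
  refine summable_of_ne_finset_zero (s := (finite_dvd (F := F) hN).toFinset) fun v hv => ?_
  unfold bt
  rw [if_neg]
  intro h
  exact hv ((finite_dvd hN).mem_toFinset.2 h)

theorem one_lt_nm (v : HeightOneSpectrum (𝓞 F)) : (1 : ℝ) < (nm v : ℝ) := by
  have h := two_le_nm v
  exact_mod_cast (by omega : 1 < nm v)

theorem fiber_le (N : ℕ) {x : ℝ} (hx : 1 < x) (v : HeightOneSpectrum (𝓞 F)) :
    ∑ w ∈ above E v, (nm w : ℝ) ^ (-x) ≤ (Module.finrank F E : ℝ) *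
      (gt F E N x v + bt F N v + (nm v : ℝ) ^ (-(2 * x))) := by
  classical
  have hv := one_lt_nm v
  have hv0 : (0 : ℝ) < (nm v : ℝ) := by linarith
  have hp : (0 : ℝ) ≤ (nm v : ℝ) ^ (-(2 * x)) := by positivity
  have hg := gt_nonneg (E := E) N x v
  have hb := bt_nonneg N v
  have h1 : ∀ w ∈ above E v, (nm w : ℝ) ^ (-x) ≤
      gt F E N x v + bt F N v + (nm v : ℝ) ^ (-(2 * x)) := by
    intro w hw
    have hwv := mem_above.1 hw
    have h2 : nm w = nm v ^ rdeg F w := by
      unfold nm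
      rw [absNorm_rdeg (K := F), hwv]
    by_cases hN : (N : 𝓞 F) ∈ v.asIdeal
    · have h3 : bt F N v = 1 := by
        unfold bt
        rw [if_pos hN]
      have h4 : (nm w : ℝ) ^ (-x) ≤ 1 :=
        Real.rpow_le_one_of_one_le_of_nonpos (one_lt_nm w).le (by linarith)
      linarith
    · by_cases hd : rdeg F w = 1
      · have h3 : gt F E N x v = (nm v : ℝ) ^ (-x) := by
          unfold gt
          rw [if_pos]
          refine ⟨hN, ?_⟩
          have h4 := good_mem (F := F) (N := N) (w := w) (by rw [hwv]; exact hN) hd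
          rw [hwv] at h4
          exact h4
        rw [h2, hd, pow_one, h3]
        linarith
      · have hd2 : 2 ≤ rdeg F w := by
          have := rdeg_pos (K := F) w
          omega
        have h3 : (nm w : ℝ) ^ (-x) ≤ (nm v : ℝ) ^ (-(2 * x)) := by
          rw [h2]
          push_cast
          rw [← Real.rpow_natCast, ← Real.rpow_mul hv0.le]
          refine Real.rpow_le_rpow_of_exponent_le hv.le ?_
          have : (2 : ℝ) ≤ (rdeg F w : ℝ) := by exact_mod_cast hd2
          nlinarith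
        linarith
  calc ∑ w ∈ above E v, (nm w : ℝ) ^ (-x)
      ≤ ∑ _w ∈ above E v, (gt F E N x v + bt F N v + (nm v : ℝ) ^ (-(2 * x))) :=
        Finset.sum_le_sum h1
    _ = ((above E v).card : ℝ) * (gt F E N x v + bt F N v + (nm v : ℝ) ^ (-(2 * x))) := by
        rw [Finset.sum_const, nsmul_eq_mul]
    _ ≤ _ := by
        refine mul_le_mul_of_nonneg_right ?_ (by positivity)
        exact_mod_cast above_card_le (E := E) v

theorem prime_sum_le_good {N : ℕ} (hN : N ≠ 0) {x : ℝ} (hx : 1 < x) :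
    ∑' w : HeightOneSpectrum (𝓞 E), (nm w : ℝ) ^ (-x) ≤ (Module.finrank F E : ℝ) *
      (∑' v, gt F E N x v + (∑' v, bt F N v + CK F)) := by
  classical
  have hs1 := gt_summable (F := F) (E := E) N hx
  have hs2 := bt_summable (F := F) hN
  have hs3 := nm_summable (K := F) (x := 2 * x) (by linarith)
  have hs : Summable fun v : HeightOneSpectrum (𝓞 F) =>
      gt F E N x v + bt F N v + (nm v : ℝ) ^ (-(2 * x)) := (hs1.add hs2).add hs3
  have h3 : ∑' v : HeightOneSpectrum (𝓞 F),
      (gt F E N x v + bt F N v + (nm v : ℝ) ^ (-(2 * x))) ≤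
      ∑' v, gt F E N x v + (∑' v, bt F N v + CK F) := by
    rw [(hs1.add hs2).tsum_add hs3, hs1.tsum_add hs2, add_assoc]
    have := tsum_nm_two_mul_le (K := F) hx
    linarith
  refine (nm_summable (K := E) hx).tsum_le_of_sum_le fun A => ?_
  have h4 : ∑ w ∈ A, (nm w : ℝ) ^ (-x) = ∑ v ∈ A.image (fun w => w.under (𝓞 F)),
      ∑ w ∈ A with w.under (𝓞 F) = v, (nm w : ℝ) ^ (-x) :=
    (Finset.sum_fiberwise_of_maps_to (fun w hw => Finset.mem_image_of_mem _ hw) _).symm
  rw [h4]
  calc ∑ v ∈ A.image (fun w => w.under (𝓞 F)), ∑ w ∈ A with w.under (𝓞 F) = v, (nm w : ℝ) ^ (-x)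
      ≤ ∑ v ∈ A.image (fun w => w.under (𝓞 F)), (Module.finrank F E : ℝ) *
          (gt F E N x v + bt F N v + (nm v : ℝ) ^ (-(2 * x))) := by
        refine Finset.sum_le_sum fun v _ => le_trans ?_ (fiber_le N hx v)
        refine Finset.sum_le_sum_of_subset_of_nonneg ?_ fun w _ _ => by positivity
        intro w hw
        exact mem_above.2 (Finset.mem_filter.1 hw).2
    _ = (Module.finrank F E : ℝ) * ∑ v ∈ A.image (fun w => w.under (𝓞 F)),
          (gt F E N x v + bt F N v + (nm v : ℝ) ^ (-(2 * x))) := (Finset.mul_sum _ _ _).symm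
    _ ≤ _ := by
        refine mul_le_mul_of_nonneg_left (le_trans ?_ h3) (by positivity)
        refine hs.sum_le_tsum _ fun v _ => ?_
        have := gt_nonneg (E := E) N x v
        have := bt_nonneg N v
        positivity

end

end Pool.Agent.Q128.AR
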