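import Pool.Agent.Q128.AR.Sec

/-! # Project AR, job SEC: characters -/

set_option autoImplicit false
set_option linter.unusedSectionVars false
set_option linter.deprecated false

namespace Pool.Agent.Q128.AR

open NumberField IsDedekindDomain Pool.Agent.Q5.BR Pool.Agent.Q92.AR Pool.Agent.H921R2.TatePole
  Filter Topology

section
variable {F : Type} [Field F] [NumberField F]

/-- a character of a quotient as a character of the divisors -/
noncomputable def cc {G : Type} [AddCommGroup G] (q : Dv F →+ G) (χ : AddChar G ℂ) :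
    Dv F →+ Additive ℂˣ :=
  (MonoidHom.toAdditiveRight (χ.toMonoidHom.toHomUnits)).comp q

theorem cc_apply {G : Type} [AddCommGroup G] (q : Dv F →+ G) (χ : AddChar G ℂ) (D : Dv F) :
    (((cc q χ D).toMul : ℂˣ) : ℂ) = χ (q D) := rfl

theorem cc_eq_zero {G : Type} [AddCommGroup G] (q : Dv F →+ G) (χ : AddChar G ℂ) (D : Dv F) :
    cc q χ D = 0 ↔ χ (q D) = 1 := by
  rw [← cc_apply]
  constructor
  · intro h
    rw [h]
    rfl
  · intro h
    have h2 : (cc q χ D).toMul = 1 := Units.ext h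
    exact h2

open scoped Classical in
/-- the terms of the logarithm of the L-function -/
noncomputable def lt (N : ℕ) (χ : Dv F →+ Additive ℂˣ) (s : ℂ)
    (x : HeightOneSpectrum (𝓞 F) × ℕ) : ℂ :=
  if (N : 𝓞 F) ∈ x.1.asIdeal then 0 else
    (((χ (Finsupp.single x.1 1)).toMul : ℂˣ) : ℂ) ^ (x.2 + 1) /
      (((x.2 + 1 : ℕ) : ℂ) * (Ideal.absNorm x.1.asIdeal : ℂ) ^ (((x.2 + 1 : ℕ) : ℂ) * s))

theorem Lc_eq (N : ℕ) (χ : Dv F →+ Additive ℂˣ) (s : ℂ) :
    Lc N χ s = Complex.exp (∑' x, lt N χ s x) := by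
  unfold Lc lt
  congr 1

theorem log_norm_Lc (N : ℕ) (χ : Dv F →+ Additive ℂˣ) (s : ℂ) :
    Real.log ‖Lc N χ s‖ = (∑' x, lt N χ s x).re := by
  rw [Lc_eq, Complex.norm_exp, Real.log_exp]

theorem pw_eq (v : HeightOneSpectrum (𝓞 F)) (k : ℕ) (x : ℝ) :
    (((k + 1 : ℕ) : ℂ) * (Ideal.absNorm v.asIdeal : ℂ) ^ (((k + 1 : ℕ) : ℂ) * (x : ℂ))) =
      ((((k + 1 : ℕ) : ℝ) * (nm v : ℝ) ^ (((k + 1 : ℕ) : ℝ) * x) : ℝ) : ℂ) := by
  rw [Complex.ofReal_mul, Complex.ofReal_cpow (by positivity)]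
  push_cast
  rfl

theorem inv_pw_eq (v : HeightOneSpectrum (𝓞 F)) (k : ℕ) (x : ℝ) :
    (nm v : ℝ) ^ (((k + 1 : ℕ) : ℝ) * x) = (((nm v : ℝ) ^ (-x)) ^ (k + 1))⁻¹ := by
  have hv := one_lt_nm v
  rw [← Real.rpow_natCast, ← Real.rpow_mul (by linarith), ← Real.rpow_neg (by linarith)]
  congr 1
  push_cast
  ring

theorem geom_summable {x : ℝ} (hx : 1 < x) :
    Summable (fun y : HeightOneSpectrum (𝓞 F) × ℕ => ((nm y.1 : ℝ) ^ (-x)) ^ (y.2 + 1)) := by
  have hr0 : ∀ v : HeightOneSpectrum (𝓞 F), 0 ≤ (nm v : ℝ) ^ (-x) := fun v => by positivity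
  have hr1 : ∀ v : HeightOneSpectrum (𝓞 F), (nm v : ℝ) ^ (-x) ≤ 1 / 2 := fun v =>
    nm_rpow_le_half v hx.le
  have hs : ∀ v : HeightOneSpectrum (𝓞 F), Summable fun k : ℕ => ((nm v : ℝ) ^ (-x)) ^ (k + 1) := by
    intro v
    simp_rw [pow_succ]
    exact (summable_geometric_of_lt_one (hr0 v) (by linarith [hr1 v])).mul_right _
  rw [summable_prod_of_nonneg (fun y => by positivity)]
  refine ⟨hs, ?_⟩
  refine Summable.of_nonneg_of_le (fun v => tsum_nonneg fun k => by positivity) (fun v => ?_)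
    ((nm_summable (K := F) hx).mul_left 2)
  have h1 : ∑' k : ℕ, ((nm v : ℝ) ^ (-x)) ^ (k + 1) =
      (1 - (nm v : ℝ) ^ (-x))⁻¹ * (nm v : ℝ) ^ (-x) := by
    simp_rw [pow_succ]
    rw [tsum_mul_right, tsum_geometric_of_lt_one (hr0 v) (by linarith [hr1 v])]
  change ∑' k : ℕ, ((nm v : ℝ) ^ (-x)) ^ (k + 1) ≤ 2 * (nm v : ℝ) ^ (-x)
  rw [h1]
  refine mul_le_mul_of_nonneg_right ?_ (hr0 v)
  rw [inv_le_comm₀ (by linarith [hr1 v]) (by norm_num)]
  linarith [hr1 v]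

theorem lt_summable {G : Type} [AddCommGroup G] [Finite G] (q : Dv F →+ G) (χ : AddChar G ℂ)
    (N : ℕ) {x : ℝ} (hx : 1 < x) : Summable (lt N (cc q χ) (x : ℂ)) := by
  refine Summable.of_norm_bounded (geom_summable hx) fun y => ?_
  unfold lt
  split_ifs
  · rw [norm_zero]
    positivity
  · rw [cc_apply, norm_div, norm_pow, AddChar.norm_apply, one_pow, pw_eq, Complex.norm_real,
      inv_pw_eq, Real.norm_eq_abs]
    have h1 : (0 : ℝ) < (nm y.1 : ℝ) ^ (-x) := by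
      have := one_lt_nm y.1
      positivity
    rw [abs_of_nonneg (by positivity), one_div, mul_inv, inv_inv]
    refine mul_le_of_le_one_left (by positivity) ?_
    refine inv_le_one_of_one_le₀ ?_
    exact_mod_cast (by omega : 1 ≤ y.2 + 1)

open scoped Classical in
theorem sum_lt {G : Type} [AddCommGroup G] [Fintype G] (q : Dv F →+ G)
    (N : ℕ) {x : ℝ} (y : HeightOneSpectrum (𝓞 F) × ℕ) :
    ∑ χ : AddChar G ℂ, lt N (cc q χ) (x : ℂ) y =
      (((if (N : 𝓞 F) ∉ y.1.asIdeal ∧ (y.2 + 1) • q (Finsupp.single y.1 1) = 0 then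
        (Fintype.card G : ℝ) * (((nm y.1 : ℝ) ^ (-x)) ^ (y.2 + 1) / ((y.2 + 1 : ℕ) : ℝ)) else 0 : ℝ)) :
          ℂ) := by
  by_cases hN : (N : 𝓞 F) ∈ y.1.asIdeal
  · rw [if_neg (fun h => h.1 hN)]
    have h1 : ∀ χ : AddChar G ℂ, lt N (cc q χ) (x : ℂ) y = 0 := by
      intro χ
      unfold lt
      rw [if_pos hN]
    simp [h1]
  · have h1 : ∀ χ : AddChar G ℂ, lt N (cc q χ) (x : ℂ) y =
        χ ((y.2 + 1) • q (Finsupp.single y.1 1)) *
          ((((nm y.1 : ℝ) ^ (-x)) ^ (y.2 + 1) / ((y.2 + 1 : ℕ) : ℝ) : ℝ) : ℂ) := by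
      intro χ
      unfold lt
      rw [if_neg hN, cc_apply, pw_eq, inv_pw_eq, AddChar.map_nsmul_eq_pow, div_eq_mul_inv,
        ← Complex.ofReal_inv]
      congr 2
      rw [mul_inv, inv_inv]
      ring
    simp_rw [h1]
    rw [← Finset.sum_mul, AddChar.sum_apply_eq_ite]
    by_cases h2 : (y.2 + 1) • q (Finsupp.single y.1 1) = 0
    · rw [if_pos h2, if_pos ⟨hN, h2⟩]
      push_cast
      ring
    · rw [if_neg h2, if_neg (fun h => h2 h.2)]
      simp

open scoped Classical in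
theorem sum_log {G : Type} [AddCommGroup G] [Fintype G] (q : Dv F →+ G) (N : ℕ)
    {x : ℝ} (hx : 1 < x) :
    (Fintype.card G : ℝ) * ∑' v : HeightOneSpectrum (𝓞 F),
      (if (N : 𝓞 F) ∉ v.asIdeal ∧ q (Finsupp.single v 1) = 0 then (nm v : ℝ) ^ (-x) else 0) ≤
    ∑ χ : AddChar G ℂ, Real.log ‖Lc N (cc q χ) (x : ℂ)‖ := by
  set R : HeightOneSpectrum (𝓞 F) × ℕ → ℝ := fun y =>
    if (N : 𝓞 F) ∉ y.1.asIdeal ∧ (y.2 + 1) • q (Finsupp.single y.1 1) = 0 then
        (Fintype.card G : ℝ) * (((nm y.1 : ℝ) ^ (-x)) ^ (y.2 + 1) / ((y.2 + 1 : ℕ) : ℝ)) else 0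
    with hR
  have hR0 : ∀ y, 0 ≤ R y := by
    intro y
    simp only [hR]
    split_ifs
    · positivity
    · exact le_rfl
  have hsum : HasSum (fun y => ∑ χ : AddChar G ℂ, lt N (cc q χ) (x : ℂ) y)
      (∑ χ : AddChar G ℂ, ∑' y, lt N (cc q χ) (x : ℂ) y) :=
    hasSum_sum fun χ _ => (lt_summable q χ N hx).hasSum
  have hsum2 : HasSum R (∑ χ : AddChar G ℂ, Real.log ‖Lc N (cc q χ) (x : ℂ)‖) := by
    have h1 := Complex.hasSum_re hsum
    rw [Complex.re_sum] at h1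
    have h2 : (fun y => (∑ χ : AddChar G ℂ, lt N (cc q χ) (x : ℂ) y).re) = R := by
      funext y
      rw [sum_lt, Complex.ofReal_re]
    rw [h2] at h1
    convert h1 using 1
    exact Finset.sum_congr rfl fun χ _ => log_norm_Lc _ _ _
  rw [← hsum2.tsum_eq, ← tsum_mul_left]
  have hi : Function.Injective (fun v : HeightOneSpectrum (𝓞 F) => (v, 0)) := by
    intro v w h
    exact (Prod.mk.inj h).1
  refine le_trans (le_of_eq ?_) (tsum_comp_le_tsum_of_inj hsum2.summable hR0 hi)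
  refine tsum_congr fun v => ?_
  simp only [hR, Function.comp_apply, zero_add, one_smul, pow_one, Nat.cast_one, div_one, mul_ite,
    mul_zero]

end

end Pool.Agent.Q128.AR
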